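import Pool.Agent.H18.Ua.UDefs

/-!
# Module UChoose (UA): numbers for complete traces
-/

namespace Pool.Agent.H18.Ua

open Finset Pool.Agent.H18.Ex Pool.Agent.H18.Cub Pool.Agent.H18.Pr

/-- The number of degrees in dimension `r`. -/
def DU (r M : ℕ) : ℕ := 300 * r * M ^ (r + 4)

theorem ell_le_pow (n M : ℕ) (hM : 1 ≤ M) : ell n M ≤ M ^ n := by
  unfold ell
  induction n with
  | zero => simp
  | succ k ih =>
    have h1 : M + (k + 1) - 1 = (M + k - 1) + 1 := by omega
    rw [h1]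
    have h2 := Nat.add_one_mul_choose_eq (M + k - 1) k
    have h3 : M + k - 1 + 1 ≤ (k + 1) * M := by
      have : k ≤ k * M := Nat.le_mul_of_pos_right k hM
      nlinarith [Nat.sub_add_cancel (show 1 ≤ M + k by omega)]
    have h4 : (M + k - 1 + 1).choose (k + 1) * (k + 1) ≤ M ^ (k + 1) * (k + 1) := by
      rw [← h2]
      calc (M + k - 1 + 1) * (M + k - 1).choose k ≤ ((k + 1) * M) * M ^ k :=
            Nat.mul_le_mul h3 ih
        _ = M ^ (k + 1) * (k + 1) := by ring
    exact Nat.le_of_mul_le_mul_right h4 (Nat.succ_pos k)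

theorem CU_le (n M : ℕ) (hM : 1 ≤ M) : CU n M ≤ 66 * M ^ (n + 4) := by
  unfold CU qU
  have h1 := ell_le_pow (n + 1) M hM
  have h2 := ell_le_pow n M hM
  have h3 : M ^ (n + 2) ≤ M ^ (n + 4) := Nat.pow_le_pow_right hM (by omega)
  calc 11 * M * (2 * M ^ 2 * ell (n + 1) M + 4 * M * ell n M)
      ≤ 11 * M * (2 * M ^ 2 * M ^ (n + 1) + 4 * M * M ^ n) := by gcongr
    _ = 22 * M ^ (n + 4) + 44 * M ^ (n + 2) := by ring
    _ ≤ 66 * M ^ (n + 4) := by omega

private theorem pow_step (n M : ℕ) (hM : 1 ≤ M) : M ^ (n + 4) ≤ M ^ (n + 5) :=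
  Nat.pow_le_pow_right hM (by omega)

private theorem DU_succ (n M : ℕ) : DU (n + 1) M = 300 * (n * M ^ (n + 5)) + 300 * M ^ (n + 5) := by
  unfold DU
  ring

theorem DU_sub {n M d i : ℕ} (hM : 1 ≤ M) (hd : DU (n + 1) M ≤ d) (hi : i < CU n M) :
    DU n M ≤ d - i := by
  have h1 := CU_le n M hM
  have h2 := pow_step n M hM
  have h3 : n * M ^ (n + 4) ≤ n * M ^ (n + 5) := Nat.mul_le_mul_left n h2
  have h4 : DU n M = 300 * (n * M ^ (n + 4)) := by unfold DU; ring
  rw [DU_succ] at hd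
  rw [h4]
  omega

theorem CU_le_DU {n M : ℕ} (hM : 1 ≤ M) : CU n M + 1 ≤ DU (n + 1) M := by
  have h1 := CU_le n M hM
  have h2 := pow_step n M hM
  have h3 : 1 ≤ M ^ (n + 4) := Nat.one_le_pow _ _ hM
  rw [DU_succ]
  omega

private theorem choose_le_add (e i k : ℕ) :
    (e + i + k + 1).choose (k + 1) ≤ (e + k + 1).choose (k + 1) + i * (e + i + k).choose k := by
  induction i with
  | zero => simp
  | succ j ih =>
    have h1 : (e + (j + 1) + k + 1).choose (k + 1)
        = (e + (j + 1) + k).choose k + (e + (j + 1) + k).choose (k + 1) := Nat.choose_succ_succ _ _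
    have h2 : (e + (j + 1) + k).choose (k + 1) = (e + j + k + 1).choose (k + 1) := by
      congr 1; omega
    have h3 : (e + j + k).choose k ≤ (e + (j + 1) + k).choose k :=
      Nat.choose_le_choose k (by omega)
    rw [h1, h2]
    have h4 := Nat.mul_le_mul_left j h3
    calc (e + (j + 1) + k).choose k + (e + j + k + 1).choose (k + 1)
        ≤ (e + (j + 1) + k).choose k + ((e + k + 1).choose (k + 1) + j * (e + j + k).choose k) :=
          Nat.add_le_add_left ih _
      _ ≤ (e + (j + 1) + k).choose k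
            + ((e + k + 1).choose (k + 1) + j * (e + (j + 1) + k).choose k) := by gcongr
      _ = (e + k + 1).choose (k + 1) + (j + 1) * (e + (j + 1) + k).choose k := by ring

/-- `binom (d + n) n - binom (d - i + n) n ≤ i n / (d + n) * binom (d + n) n`. -/
theorem slow_choose {n M d i : ℕ} (hn : 1 ≤ n) (hM : 1 ≤ M) (hd : DU (n + 1) M ≤ d)
    (hi : i < CU n M) :
    (4 * M - 1) * (d + n).choose n ≤ 4 * M * (d - i + n).choose n := by
  obtain ⟨k, rfl⟩ : ∃ k, n = k + 1 := ⟨n - 1, by omega⟩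
  have hc := CU_le (k + 1) M hM
  have hcd := CU_le_DU (n := k + 1) hM
  have hid : i ≤ d := by omega
  obtain ⟨e, rfl⟩ : ∃ e, d = e + i := ⟨d - i, by omega⟩
  have he : e + i - i = e := by omega
  rw [he]
  have h1 := choose_le_add e i k
  have h2 := Nat.add_one_mul_choose_eq (e + i + k) k
  rw [DU_succ] at hd
  have h3 : 4 * M * i * (k + 1) ≤ e + i + k + 1 := by
    have h4 : i ≤ 66 * M ^ (k + 1 + 4) := by omega
    calc 4 * M * i * (k + 1) ≤ 4 * M * (66 * M ^ (k + 1 + 4)) * (k + 1) := by gcongr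
      _ = 264 * ((k + 1) * M ^ (k + 1 + 5)) := by ring
      _ ≤ e + i + k + 1 := by omega
  set X := (e + i + k + 1).choose (k + 1) with hX
  set Z := (e + i + k).choose k with hZ
  set Y := (e + k + 1).choose (k + 1) with hY
  have h5 : 4 * M * (i * Z) ≤ X := by
    have h6 : 4 * M * (i * Z) * (k + 1) ≤ X * (k + 1) := by
      rw [← h2]
      calc 4 * M * (i * Z) * (k + 1) = (4 * M * i * (k + 1)) * Z := by ring
        _ ≤ (e + i + k + 1) * Z := Nat.mul_le_mul_right Z h3
    exact Nat.le_of_mul_le_mul_right h6 (Nat.succ_pos k)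
  have h7 : (e + i + (k + 1)).choose (k + 1) = X := by rw [hX]; congr 1
  have h8 : (e + (k + 1)).choose (k + 1) = Y := by rw [hY]; congr 1
  rw [h7, h8]
  have h9 : 4 * M * X ≤ 4 * M * (Y + i * Z) := Nat.mul_le_mul_left _ h1
  have h10 : (4 * M - 1) * X = 4 * M * X - X := by
    rw [Nat.sub_mul, one_mul]
  rw [h10, Nat.sub_le_iff_le_add]
  calc 4 * M * X ≤ 4 * M * (Y + i * Z) := h9
    _ = 4 * M * Y + 4 * M * (i * Z) := by ring
    _ ≤ 4 * M * Y + X := Nat.add_le_add_left h5 _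

theorem TU_le_choose {n M d : ℕ} (hn : 1 ≤ n) (hM : 1 ≤ M) (hd : DU (n + 1) M ≤ d) :
    TU n M ≤ (d + n).choose n := by
  have h1 : TU n M ≤ 16 * M ^ (2 * n + 2) := by
    unfold TU
    have h2 := ell_le_pow n M hM
    calc 8 * M * (M + 1) * ell n M ^ 2 ≤ 8 * M * (M + M) * (M ^ n) ^ 2 := by gcongr
      _ = 16 * M ^ (2 * n + 2) := by ring
  refine h1.trans ?_
  rw [DU_succ] at hd
  have hd1 : 300 * M ^ (n + 5) ≤ d := by omega
  rcases Nat.lt_or_ge n 2 with hn2 | hn2
  · obtain rfl : n = 1 := by omega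
    have h3 : M ^ (2 * 1 + 2) ≤ M ^ (1 + 5) := Nat.pow_le_pow_right hM (by omega)
    rw [Nat.choose_one_right]
    omega
  · have h3 : (d + 2).choose 2 ≤ (d + n).choose n := by
      calc (d + 2).choose 2 = (d + 2).choose d := (Nat.choose_symm_add).symm
        _ ≤ (d + n).choose d := Nat.choose_le_choose d (by omega)
        _ = (d + n).choose n := Nat.choose_symm_add
    refine le_trans ?_ h3
    have h4 := Nat.add_one_mul_choose_eq (d + 1) 1
    simp only [Nat.choose_one_right] at h4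
    have h5 : M ^ (2 * n + 2) ≤ (M ^ (n + 5)) ^ 2 := by
      rw [← pow_mul]
      exact Nat.pow_le_pow_right hM (by omega)
    have h6 : 300 * M ^ (n + 5) * (300 * M ^ (n + 5)) ≤ (d + 1 + 1) * (d + 1) :=
      Nat.mul_le_mul (by omega) (by omega)
    have h7 : (d + 2).choose 2 = (d + 1 + 1).choose (1 + 1) := rfl
    rw [h7]
    nlinarith [h4, h5, h6]

end Pool.Agent.H18.Ua
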