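import Pool.Agent.H18.Ua.UMain
import Pool.Agent.H18.Ua.UTrace
import Pool.Agent.H18.Ua.UChoose

/-!
# Module UAll (UA): all polynomials
-/

namespace Pool.Agent.H18.Ua

open Finset Pool.Agent.H18.Ex Pool.Agent.H18.Cub Pool.Agent.H18.Pr

private theorem ual_one_le (n : ℕ) (v : ℂ) :
    1 ≤ (MvPolynomial.X 0 - MvPolynomial.C v : MvPolynomial (Fin (n + 1)) ℂ).totalDegree := by
  have h1 : MvPolynomial.coeff (Finsupp.single (0 : Fin (n + 1)) 1)
      (MvPolynomial.X 0 - MvPolynomial.C v : MvPolynomial (Fin (n + 1)) ℂ) = 1 := by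
    rw [MvPolynomial.coeff_sub, MvPolynomial.coeff_X, if_pos rfl, MvPolynomial.coeff_C, if_neg,
      sub_zero]
    intro h
    have := DFunLike.congr_fun h (0 : Fin (n + 1))
    simp at this
  have h2 := MvPolynomial.le_totalDegree (p := (MvPolynomial.X 0 - MvPolynomial.C v :
    MvPolynomial (Fin (n + 1)) ℂ)) (s := Finsupp.single (0 : Fin (n + 1)) 1)
    (by
      rw [MvPolynomial.mem_support_iff, h1]
      exact one_ne_zero)
  simpa using h2

private theorem wc_degree_residual_gen {n : ℕ} (L P : MvPolynomial (Fin (n + 1)) ℂ) (k d : ℕ)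
    (hL : L ≠ 0) (hk : k ≤ L.totalDegree) (h : (L * P).totalDegree ≤ d) :
    P.totalDegree ≤ d - k := by
  by_cases hP : P = 0
  · rw [hP, MvPolynomial.totalDegree_zero]
    exact Nat.zero_le _
  · rw [MvPolynomial.totalDegree_mul_of_isDomain hL hP] at h
    omega

/-- The family of all polynomials. -/
noncomputable def Fam.all (n : ℕ) : Fam n where
  W := fun δ => MvPolynomial.restrictTotalDegree (Fin (n + 1)) ℂ δ
  deg := by
    intro δ F hF
    exact (MvPolynomial.mem_restrictTotalDegree _ _ _).1 hF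
  mul := by
    intro δ j F hF Q hQ
    rw [MvPolynomial.mem_restrictTotalDegree] at hF ⊢
    refine (MvPolynomial.totalDegree_mul Q F).trans ?_
    omega
  bad := ∅
  res := by
    intro δ v _ F hF
    rw [MvPolynomial.mem_restrictTotalDegree] at hF ⊢
    have h1 := ual_one_le n v
    have h0 : (MvPolynomial.X 0 - MvPolynomial.C v : MvPolynomial (Fin (n + 1)) ℂ) ≠ 0 := by
      intro h
      rw [h, MvPolynomial.totalDegree_zero] at h1
      omega
    have := wc_degree_residual_gen _ F 1 (δ + 1) h0 h1 hF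
    omega

private theorem ual_set (n δ : ℕ) :
    {s : Fin (n + 1) →₀ ℕ | (s.sum fun _ e => e) ≤ δ} =
      ((Finset.range (δ + 1)).biUnion fun i =>
        Finset.finsuppAntidiag (Finset.univ : Finset (Fin (n + 1))) i : Finset _) := by
  ext s
  simp only [Set.mem_ofPred_eq, Finset.coe_biUnion, Finset.coe_range, Set.mem_iUnion, Set.mem_Iio,
    Finset.mem_coe, Finset.mem_finsuppAntidiag, Finset.subset_univ, and_true, exists_prop]
  have h : (s.sum fun _ e => e) = ∑ i, s i := Finsupp.sum_fintype _ _ (fun _ => rfl)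
  rw [h]
  constructor
  · intro h1
    exact ⟨_, Nat.lt_succ_of_le h1, rfl⟩
  · rintro ⟨i, h1, h2⟩
    have h3 : ∑ i, s i = i := h2
    omega

theorem Fam.all_h (n δ : ℕ) : (Fam.all n).h δ = (δ + n + 1).choose (n + 1) := by
  have h1 : (Fam.all n).h δ = Nat.card {s : Fin (n + 1) →₀ ℕ | (s.sum fun _ e => e) ≤ δ} :=
    Module.finrank_eq_nat_card_basis (MvPolynomial.basisRestrictSupport ℂ _)
  rw [h1, ual_set, Nat.card_coe_set_eq, Set.ncard_coe_finset, Finset.card_biUnion]
  · rw [← Nat.sum_range_add_choose δ n]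
    refine Finset.sum_congr rfl fun i _ => ?_
    rw [Finset.card_finsuppAntidiag_nat_eq_choose, Finset.card_univ, Fintype.card_fin]
    have h2 : n + 1 + i - 1 = i + n := by omega
    rw [h2]
    exact (Nat.choose_symm_add).symm ▸ rfl
  · intro i _ j _ hij
    rw [Function.onFun, Finset.disjoint_left]
    intro s h1 h2
    rw [Finset.mem_finsuppAntidiag] at h1 h2
    exact hij (h1.1.symm.trans h2.1)

/-- A family with complete traces in the degrees from `d - CU n M` to `d`. -/
theorem Fam.exact_full {n : ℕ} (hn : 1 ≤ n) {M : ℕ} (hM : 1 ≤ M) (A : Fam n) (d : ℕ)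
    (hd : DU (n + 1) M ≤ d)
    (hfull : ∀ i < CU n M, A.h (d - i) = A.h (d - i - 1) + (d - i + n).choose n)
    (hA : ∀ δ, DU n M ≤ δ → AHx n M δ) (G : Multiset ℕ) (hG : ∀ m ∈ G, m ≤ M)
    (hsum : A.h d ≤ (G.map (ell (n + 1))).sum) : Fk (A.W d) G := by
  have hCD : CU n M + 1 ≤ DU (n + 1) M := CU_le_DU hM
  have hC0 : 0 < CU n M := by
    have h1 : 1 ≤ ell n M := ell_pos n hM
    have h2 : 1 ≤ M * ell n M := Nat.mul_pos hM h1
    unfold CU qU
    have h3 : 0 < 2 * M ^ 2 * ell (n + 1) M + 4 * M * ell n M := by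
      have : 4 * M * ell n M = 4 * (M * ell n M) := by ring
      omega
    positivity
  have hdiff : ∀ i < CU n M, A.h (d - i) - A.h (d - i - 1) = (d - i + n).choose n := by
    intro i hi
    have := hfull i hi
    omega
  have h0 : A.h d - A.h (d - 1) = (d + n).choose n := by
    have := hdiff 0 hC0
    simpa using this
  refine Fam.exact hn hM A d (by omega) ?_ ?_ ?_ G hG hsum
  · rw [h0]
    exact TU_le_choose hn hM hd
  · intro i hi
    rw [h0, hdiff i hi]
    exact slow_choose hn hM hd hi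
  · intro i hi
    exact trex_full A M (d - i) (hfull i hi).ge (hA _ (DU_sub hM hd hi))

/-- The theorem of Alexander and Hirschowitz for bounded multiplicities (induction on `n`). -/
theorem ahx_all (n : ℕ) (hn : 1 ≤ n) {M : ℕ} (hM : 1 ≤ M) (δ : ℕ) (hδ : DU n M ≤ δ) :
    AHx n M δ := by
  induction n, hn using Nat.le_induction generalizing δ with
  | base => exact ahx_one M δ
  | succ n hn ih =>
    intro S hS hsum
    have hCD : CU n M + 1 ≤ DU (n + 1) M := CU_le_DU hM
    refine Fam.exact_full hn hM (Fam.all n) δ hδ ?_ ih S hS ?_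
    · intro i hi
      rw [Fam.all_h, Fam.all_h]
      have h1 : δ - i - 1 + n + 1 = δ - i + n := by omega
      rw [h1, Nat.choose_succ_succ']
      omega
    · rw [Fam.all_h]
      exact hsum

end Pool.Agent.H18.Ua
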