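import Pool.Agent.H18.Pr.SchedN
import Pool.Agent.H18.Pr.FkL

/-!
# Project UA: small multiplicities and a given scheme

`Fam n` is a family of spaces `W δ` of polynomials of degree at most `δ` in `x_0, …, x_n`, behaving
like the polynomials of degree at most `δ` that vanish on a closed subscheme.  We show: if the numbers
`h δ - h (δ - 1)` (`h δ = dim W δ`) vary slowly below `d` and the traces on hyperplanes are exact then
general points of multiplicities at most `M` impose maximal conditions on `W d`.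
-/

namespace Pool.Agent.H18.Ua

open Finset Pool.Agent.H18.Ex Pool.Agent.H18.Cub Pool.Agent.H18.Pr

/-- A family of spaces of polynomials behaving like the pieces of a saturated ideal. -/
structure Fam (n : ℕ) : Type where
  /-- the spaces -/
  W : ℕ → Submodule ℂ (MvPolynomial (Fin (n + 1)) ℂ)
  deg : ∀ δ, ∀ F ∈ W δ, F.totalDegree ≤ δ
  mul : ∀ δ j, ∀ F ∈ W δ, ∀ Q : MvPolynomial (Fin (n + 1)) ℂ, Q.totalDegree ≤ j →
    Q * F ∈ W (δ + j)
  /-- the values `v` for which the hyperplane `x_0 = v` is excluded -/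
  bad : Finset ℂ
  res : ∀ δ, ∀ v, v ∉ bad → ∀ F, (MvPolynomial.X 0 - MvPolynomial.C v) * F ∈ W (δ + 1) → F ∈ W δ

variable {n : ℕ}

/-- The dimensions. -/
noncomputable def Fam.h (A : Fam n) (δ : ℕ) : ℕ := Module.finrank ℂ (A.W δ)

/-- The hyperplanes `x_0 = v l`. -/
def gU (n : ℕ) {q : ℕ} (v : Fin q → ℂ) : Lines (Fin q) (Fin (n + 1)) where
  co := fun _ => 0
  va := v

/-- The trace on `x_0 = v` of the space of degree `δ` is killed by general points of multiplicities at
most `M` as soon as their lengths suffice. -/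
def TrEx (A : Fam n) (M δ : ℕ) : Prop :=
  ∀ v, v ∉ A.bad → ∀ S : Multiset ℕ, (∀ m ∈ S, m ≤ M) →
    A.h δ ≤ A.h (δ - 1) + (S.map (ell n)).sum → Fk ((A.W δ).map (sub1 0 v).toLinearMap) S

/-- The elements of `W` satisfying the conditions `k` at the positions `pos`. -/
noncomputable def kerP {ι Λ κ : Type} [Fintype ι] [DecidableEq ι] (g : Lines Λ ι)
    (W : Submodule ℂ (MvPolynomial ι ℂ)) (k : κ → Kind Λ) (pos : κ → ι → ℂ) :
    Submodule ℂ (MvPolynomial ι ℂ) where
  carrier := {F | F ∈ W ∧ ∀ i, SatP g F (k i) (pos i)}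
  add_mem' := by
    rintro F G ⟨h1, h2⟩ ⟨h3, h4⟩
    refine ⟨W.add_mem h1 h3, fun i b hb => ?_⟩
    rw [tay_add, h2 i b hb, h4 i b hb, add_zero]
  zero_mem' := ⟨W.zero_mem, fun _ _ _ => tay_zero _ _⟩
  smul_mem' := by
    rintro c F ⟨h1, h2⟩
    refine ⟨W.smul_mem c h1, fun i b hb => ?_⟩
    rw [tay_smul, h2 i b hb, mul_zero]

theorem mem_kerP {ι Λ κ : Type} [Fintype ι] [DecidableEq ι] {g : Lines Λ ι}
    {W : Submodule ℂ (MvPolynomial ι ℂ)} {k : κ → Kind Λ} {pos : κ → ι → ℂ}
    {F : MvPolynomial ι ℂ} : F ∈ kerP g W k pos ↔ F ∈ W ∧ ∀ i, SatP g F (k i) (pos i) := Iff.rfl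

theorem kerP_le {ι Λ κ : Type} [Fintype ι] [DecidableEq ι] {g : Lines Λ ι}
    {W : Submodule ℂ (MvPolynomial ι ℂ)} {k : κ → Kind Λ} {pos : κ → ι → ℂ} :
    kerP g W k pos ≤ W := fun _ hF => hF.1

/-! ### Numbers -/

/-- The number of hyperplanes. -/
def qU (n M : ℕ) : ℕ := 2 * M ^ 2 * ell (n + 1) M + 4 * M * ell n M

/-- The number of degrees that are used. -/
def CU (n M : ℕ) : ℕ := 11 * M * qU n M

/-- The required size of the traces. -/
def TU (n M : ℕ) : ℕ := 8 * M * (M + 1) * ell n M ^ 2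

/-- The number of points put on each hyperplane. -/
def yU (n M t : ℕ) : ℕ := t / (2 * ell n M)

section

variable {Λ : Type} [Fintype Λ] [DecidableEq Λ]

/-- The states that are used: at most `2 M + 1` steps in each direction. -/
def RegU (M : ℕ) (N a : Λ → ℕ) : Prop := ∀ i, a i ≤ N i ∧ N i ≤ a i + (2 * M + 1)

/-- The numerical properties of a Horace system below the state `N`. -/
structure NumU (Y : SysN Λ n) (M t : ℕ) (N : Λ → ℕ) : Prop where
  hn : 1 ≤ n
  hM : 1 ≤ M
  ht : TU n M ≤ t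
  hq : Fintype.card Λ = qU n M
  hN : ∀ i, 2 * M + 2 ≤ N i
  Fle : ∀ a l, RegU M N a → Y.F l a ≤ t
  leF : ∀ a l, RegU M N a → (4 * M - 1) * t ≤ 4 * M * Y.F l a
  gd : ∀ a l, RegU M N a → Y.Gd M l a
  leR : ∀ a, RegU M N a → ((4 * M * qU n M * t : ℕ) : ℤ) ≤ Y.R a
  full : ∀ a, RegU M N a → FullN Y a
  kill : ∀ a, RegU M N a → ∀ (S : Multiset (Kind Λ)) (x s : ℕ) (G : Multiset ℕ),
    (∀ m ∈ G, 1 ≤ m ∧ m ≤ M) → Y.K a (S + Multiset.replicate x (Kind.free 1)) →
    x ≤ (G.map (ell (n + 1))).sum + s →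
    (M * t ≤ s ∨ x + ell (n + 1) M * (M * t) ≤ (G.map (ell (n + 1))).sum + s) →
    Y.K a (S + G.map Kind.free + Multiset.replicate s (Kind.free 1))

/-- One step down in the directions of `T`. -/
def dnT (T : Finset Λ) (a : Λ → ℕ) : Λ → ℕ := fun l => if l ∈ T then a l - 1 else a l

/-- The configuration of the branch `T` (`T ⊆ P`): in the directions of `P`, `y` of the forced simple
points are removed; in the directions of `P \ T` they become free simple points; in the directions of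
`T` the other forced conditions go one step down. -/
def brT (c : Cfg Λ) (y : ℕ) (P T : Finset Λ) : Cfg Λ where
  N := c.N
  s := c.s + y * (P \ T).card
  Φ := fun l => if l ∈ T then shf (c.Φ l - Multiset.replicate y (1, 1))
    else if l ∈ P then c.Φ l - Multiset.replicate y (1, 1) else c.Φ l

end

end Pool.Agent.H18.Ua
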