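import Pool.Agent.H18.Ua.UDefs
import Pool.Agent.H18.Cub.Trans

/-!
# Module UDeh (UA): dehomogenisation
-/

namespace Pool.Agent.H18.Ua

open Finset Pool.Agent.H18.Ex Pool.Agent.H18.Cub Pool.Agent.H18.Pr Pool.Agent.H18.Fat

variable {r : ℕ}

/-- `F(X_0, …, X_r) ↦ F(1, x_0, …, x_{r - 1})`. -/
noncomputable def dehA (r : ℕ) :
    MvPolynomial (Fin (r + 1)) ℂ →ₐ[ℂ] MvPolynomial (Fin r) ℂ :=
  MvPolynomial.aeval (Fin.cons 1 MvPolynomial.X)

/-- The exponent of the dehomogenised monomial. -/
private noncomputable def dexp (s : Fin (r + 1) →₀ ℕ) : Fin r →₀ ℕ :=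
  Finsupp.equivFunOnFinite.symm fun i => s i.succ

private theorem dehA_monomial (s : Fin (r + 1) →₀ ℕ) (c : ℂ) :
    dehA r (MvPolynomial.monomial s c) = MvPolynomial.monomial (dexp s) c := by
  rw [dehA, MvPolynomial.aeval_monomial, Finsupp.prod_fintype _ _ (fun i => pow_zero _),
    Fin.prod_univ_succ, MvPolynomial.monomial_eq,
    Finsupp.prod_fintype _ _ (fun i => pow_zero _), MvPolynomial.algebraMap_eq]
  simp [dexp]

private theorem dehA_eq (F : MvPolynomial (Fin (r + 1)) ℂ) :
    dehA r F = ∑ s ∈ F.support, MvPolynomial.monomial (dexp s) (F.coeff s) := by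
  conv_lhs => rw [F.as_sum]
  rw [map_sum]
  exact sum_congr rfl fun s _ => dehA_monomial s _

private theorem dexp_degree {d : ℕ} {F : MvPolynomial (Fin (r + 1)) ℂ} (hF : F.IsHomogeneous d)
    {s : Fin (r + 1) →₀ ℕ} (hs : F.coeff s ≠ 0) : s 0 + ∑ i, dexp s i = d := by
  have h1 := hF hs
  rw [← h1, Finsupp.weight_apply, Finsupp.sum_fintype _ _ (fun i => by simp),
    Fin.sum_univ_succ]
  simp [dexp]

theorem dehA_degree (F : MvPolynomial (Fin (r + 1)) ℂ) (δ : ℕ) (hF : F.IsHomogeneous δ) :
    (dehA r F).totalDegree ≤ δ := by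
  rw [dehA_eq]
  refine (MvPolynomial.totalDegree_finsetSum _ _).trans ?_
  refine Finset.sup_le fun s hs => ?_
  refine (MvPolynomial.totalDegree_monomial_le _ _).trans ?_
  have h1 := dexp_degree hF (MvPolynomial.mem_support_iff.1 hs)
  rw [Finsupp.sum_fintype _ _ (fun i => rfl)]
  change ∑ i, dexp s i ≤ δ
  omega

theorem dehA_injective (F : MvPolynomial (Fin (r + 1)) ℂ) (δ : ℕ) (hF : F.IsHomogeneous δ)
    (h : dehA r F = 0) : F = 0 := by
  by_contra hne
  obtain ⟨s, hs⟩ := MvPolynomial.ne_zero_iff.1 hne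
  have h1 : (dehA r F).coeff (dexp s) = F.coeff s := by
    rw [dehA_eq, MvPolynomial.coeff_sum, sum_eq_single s]
    · rw [MvPolynomial.coeff_monomial, if_pos rfl]
    · intro t ht hts
      rw [MvPolynomial.coeff_monomial, if_neg]
      intro heq
      apply hts
      have h2 := dexp_degree hF (MvPolynomial.mem_support_iff.1 ht)
      have h3 := dexp_degree hF hs
      rw [heq] at h2
      ext i
      refine Fin.cases ?_ (fun i => ?_) i
      · omega
      · have h4 := DFunLike.congr_fun heq i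
        simpa [dexp] using h4
    · intro hns
      exact absurd (MvPolynomial.mem_support_iff.2 hs) hns
  rw [h, MvPolynomial.coeff_zero] at h1
  exact hs h1.symm

/-- The exponent of the homogenised monomial. -/
private noncomputable def hexp (δ : ℕ) (s : Fin r →₀ ℕ) : Fin (r + 1) →₀ ℕ :=
  Finsupp.equivFunOnFinite.symm (Fin.cons (δ - ∑ i, s i) fun i => s i)

private theorem dexp_hexp (δ : ℕ) (s : Fin r →₀ ℕ) : dexp (hexp δ s) = s := by
  ext i
  simp [dexp, hexp]

theorem dehA_surjective (f : MvPolynomial (Fin r) ℂ) (δ : ℕ) (hf : f.totalDegree ≤ δ) :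
    ∃ F : MvPolynomial (Fin (r + 1)) ℂ, F.IsHomogeneous δ ∧ dehA r F = f := by
  refine ⟨∑ s ∈ f.support, MvPolynomial.monomial (hexp δ s) (f.coeff s), ?_, ?_⟩
  · apply MvPolynomial.IsHomogeneous.sum
    intro s hs
    apply MvPolynomial.isHomogeneous_monomial
    have h1 := MvPolynomial.le_totalDegree hs
    rw [Finsupp.sum_fintype _ _ (fun i => rfl)] at h1
    change ∑ i, s i ≤ f.totalDegree at h1
    rw [Finsupp.degree_eq_sum, Fin.sum_univ_succ]
    simp only [hexp, Finsupp.equivFunOnFinite_symm_apply_apply, Fin.cons_zero, Fin.cons_succ]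
    omega
  · rw [map_sum]
    conv_rhs => rw [f.as_sum]
    refine sum_congr rfl fun s _ => ?_
    rw [dehA_monomial, dexp_hexp]

/-- As `deh_vanish` in `Pool.Agent.H18.Cub.Trans`. -/
theorem dehA_vanish (F : MvPolynomial (Fin (r + 1)) ℂ) (P : Fin r → ℂ) (m : ℕ)
    (h : VanishesToOrder F (Fin.cons 1 P) m) (β : Fin r → ℕ) (hβ : ∑ i, β i < m) :
    tay (dehA r F) P β = 0 := by
  rw [vanishesToOrder_iff_mem_ideal_pow] at h
  set J : Ideal (MvPolynomial (Fin r) ℂ) := Ideal.span (Set.range fun j =>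
    (MvPolynomial.X j - MvPolynomial.C (P j) : MvPolynomial (Fin r) ℂ)) with hJ
  have hC : ∀ c : ℂ, dehA r (MvPolynomial.C c) = MvPolynomial.C c := fun c => (dehA r).commutes c
  have hle : Ideal.map (dehA r) (Ideal.span (Set.range fun j =>
      (MvPolynomial.X j - MvPolynomial.C ((Fin.cons 1 P : Fin (r + 1) → ℂ) j) :
        MvPolynomial (Fin (r + 1)) ℂ))) ≤ J := by
    rw [Ideal.map_span, Ideal.span_le]
    rintro _ ⟨_, ⟨j, rfl⟩, rfl⟩
    refine Fin.cases ?_ (fun i => ?_) j
    · have h0 : dehA r (MvPolynomial.X 0 - MvPolynomial.C 1) = 0 := by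
        rw [map_sub, hC]
        simp [dehA]
      change dehA r (MvPolynomial.X 0 - MvPolynomial.C 1) ∈ J
      rw [h0]
      exact J.zero_mem
    · have h0 : dehA r (MvPolynomial.X i.succ - MvPolynomial.C (P i)) =
          MvPolynomial.X i - MvPolynomial.C (P i) := by
        rw [map_sub, hC]
        simp [dehA]
      change dehA r (MvPolynomial.X i.succ - MvPolynomial.C (P i)) ∈ J
      rw [h0]
      exact Ideal.subset_span ⟨i, rfl⟩
  have h1 : dehA r F ∈ J ^ m := by
    have h2 := Ideal.mem_map_of_mem (dehA r) h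
    rw [Ideal.map_pow] at h2
    exact Ideal.pow_right_mono hle m h2
  have h2 : VanishesToOrder (dehA r F) P m := by
    rw [vanishesToOrder_iff_mem_ideal_pow]
    exact h1
  refine h2 (Finsupp.equivFunOnFinite.symm β) ?_
  rw [Finsupp.degree_eq_sum]
  simpa using hβ

private theorem coeff_zero_shift {n : ℕ} (L : MvPolynomial (Fin n) ℂ) (q : Fin n → ℂ) :
    MvPolynomial.coeff 0 (shift q L) = MvPolynomial.eval q L := by
  rw [← MvPolynomial.constantCoeff_eq, shift]
  induction L using MvPolynomial.induction_on with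
  | C a => simp
  | add p q hp hq => rw [map_add, map_add, hp, hq, map_add]
  | mul_X p i hp =>
    rw [map_mul, map_mul, hp, map_mul, MvPolynomial.aeval_X]
    simp

/-- Units may be cancelled. -/
theorem vanishes_of_mul {n : ℕ} (L F : MvPolynomial (Fin n) ℂ) (q : Fin n → ℂ) (m : ℕ)
    (hL : MvPolynomial.eval q L ≠ 0) (h : VanishesToOrder (L * F) q m) :
    VanishesToOrder F q m := by
  have hmul : shift q (L * F) = shift q L * shift q F := by
    rw [shift, shift, shift, map_mul]
  have key : ∀ k : ℕ, ∀ β : Fin n →₀ ℕ, β.degree = k → β.degree < m →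
      MvPolynomial.coeff β (shift q F) = 0 := by
    intro k
    induction k using Nat.strong_induction_on with
    | _ k ih =>
      intro β hk hβ
      have h1 := h β hβ
      rw [hmul, MvPolynomial.coeff_mul, Finset.sum_eq_single (0, β)] at h1
      · rw [coeff_zero_shift] at h1
        exact (mul_eq_zero.1 h1).resolve_left hL
      · rintro ⟨a, b⟩ hab hne
        rw [Finset.HasAntidiagonal.mem_antidiagonal] at hab
        have hab' : a + b = β := hab
        have hdeg : a.degree + b.degree = β.degree := by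
          rw [← hab', map_add]
        have ha : a ≠ 0 := by
          intro h0
          apply hne
          rw [h0, zero_add] at hab'
          rw [h0, hab']
        have ha' : 0 < a.degree := by
          rw [Nat.pos_iff_ne_zero, Ne, Finsupp.degree_eq_zero_iff]
          exact ha
        have hb : MvPolynomial.coeff b (shift q F) = 0 :=
          ih b.degree (by omega) b rfl (by omega)
        simp only
        rw [hb, mul_zero]
      · intro hn
        exact absurd (Finset.HasAntidiagonal.mem_antidiagonal.2 (zero_add β)) hn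
  exact fun β hβ => key _ β rfl hβ

theorem vanishes_mul {n : ℕ} (L F : MvPolynomial (Fin n) ℂ) (q : Fin n → ℂ) (m : ℕ)
    (h : VanishesToOrder F q m) : VanishesToOrder (L * F) q m := by
  rw [vanishesToOrder_iff_mem_ideal_pow] at h ⊢
  exact Ideal.mul_mem_left _ _ h

/-- Homogeneous coordinates may be scaled. -/
theorem vanishes_smul {n : ℕ} (F : MvPolynomial (Fin n) ℂ) (δ : ℕ) (hF : F.IsHomogeneous δ)
    (q : Fin n → ℂ) (c : ℂ) (hc : c ≠ 0) (m : ℕ) (h : VanishesToOrder F q m) :
    VanishesToOrder F (c • q) m := by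
  rw [vanishesToOrder_iff_mem_ideal_pow] at h ⊢
  set φ : MvPolynomial (Fin n) ℂ →ₐ[ℂ] MvPolynomial (Fin n) ℂ :=
    MvPolynomial.aeval (fun j => MvPolynomial.C c⁻¹ * MvPolynomial.X j) with hφ
  have hC : ∀ c : ℂ, φ (MvPolynomial.C c) = MvPolynomial.C c := fun c => φ.commutes c
  have hle : Ideal.map φ (Ideal.span (Set.range fun j =>
      (MvPolynomial.X j - MvPolynomial.C (q j) : MvPolynomial (Fin n) ℂ))) ≤
      Ideal.span (Set.range fun j =>
      (MvPolynomial.X j - MvPolynomial.C ((c • q) j) : MvPolynomial (Fin n) ℂ)) := by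
    rw [Ideal.map_span, Ideal.span_le]
    rintro _ ⟨_, ⟨j, rfl⟩, rfl⟩
    have h0 : φ (MvPolynomial.X j - MvPolynomial.C (q j)) =
        MvPolynomial.C c⁻¹ * (MvPolynomial.X j - MvPolynomial.C ((c • q) j)) := by
      rw [map_sub, hC, hφ, MvPolynomial.aeval_X, mul_sub, ← MvPolynomial.C_mul, Pi.smul_apply,
        smul_eq_mul, inv_mul_cancel_left₀ hc]
    change φ (MvPolynomial.X j - MvPolynomial.C (q j)) ∈ _
    rw [h0]
    exact Ideal.mul_mem_left _ _ (Ideal.subset_span ⟨j, rfl⟩)
  have h1 := Ideal.mem_map_of_mem φ h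
  rw [Ideal.map_pow] at h1
  have h2 := Ideal.pow_right_mono hle m h1
  have h3 : φ F = MvPolynomial.C (c⁻¹ ^ δ) * F := by
    conv_lhs => rw [F.as_sum]
    conv_rhs => rw [F.as_sum]
    rw [map_sum, Finset.mul_sum]
    refine Finset.sum_congr rfl fun s hs => ?_
    have hd : s.degree = δ := by
      have h5 := hF (MvPolynomial.mem_support_iff.1 hs)
      rw [← h5, Finsupp.weight_apply, Finsupp.sum_fintype _ _ (fun i => by simp),
        Finsupp.degree_eq_sum]
      simp
    rw [hφ, MvPolynomial.aeval_monomial, MvPolynomial.monomial_eq]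
    have h6 : (s.prod fun i k => (MvPolynomial.C c⁻¹ * MvPolynomial.X i :
        MvPolynomial (Fin n) ℂ) ^ k) =
        MvPolynomial.C (c⁻¹ ^ δ) * s.prod fun i k => (MvPolynomial.X i :
          MvPolynomial (Fin n) ℂ) ^ k := by
      simp only [mul_pow]
      rw [Finsupp.prod_mul]
      congr 1
      rw [Finsupp.prod_fintype _ _ (fun i => pow_zero _), Finset.prod_pow_eq_pow_sum,
        ← Finsupp.degree_eq_sum, hd, ← map_pow]
    rw [h6, MvPolynomial.algebraMap_eq]
    ring
  rw [h3] at h2
  have h4 := Ideal.mul_mem_left _ (MvPolynomial.C (c ^ δ)) h2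
  rw [← mul_assoc, ← MvPolynomial.C_mul, ← mul_pow, mul_inv_cancel₀ hc, one_pow, map_one,
    one_mul] at h4
  exact h4

end Pool.Agent.H18.Ua
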