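import Pool.Agent.H18.Ua.UDeh
import Pool.Agent.H18.Ua.UFam
import Pool.Agent.H18.Cub.MultiP

/-!
# Module UFat (UA): the family of a scheme of fat points
-/

namespace Pool.Agent.H18.Ua

open Finset Pool.Agent.H18.Ex Pool.Agent.H18.Cub Pool.Agent.H18.Pr Pool.Agent.H18.Fat

variable {n k : ℕ}

/-- The points with homogeneous coordinates `(1, P i)`. -/
def affP (P : Fin k → Fin (n + 1) → ℂ) : Fin k → Fin (n + 1 + 1) → ℂ := fun i => Fin.cons 1 (P i)

private theorem ufat_coeff (v : ℂ) : MvPolynomial.coeff (Finsupp.single 0 1)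
    (MvPolynomial.X 0 - MvPolynomial.C v : MvPolynomial (Fin (n + 1)) ℂ) = 1 := by
  rw [MvPolynomial.coeff_sub, MvPolynomial.coeff_X, if_pos rfl, MvPolynomial.coeff_C, if_neg,
    sub_zero]
  intro h2
  have := DFunLike.congr_fun h2 0
  simp at this

/-- Degree of a cofactor. -/
private theorem ufat_degree (F : MvPolynomial (Fin (n + 1)) ℂ) (v : ℂ) (δ : ℕ)
    (h : ((MvPolynomial.X 0 - MvPolynomial.C v) * F).totalDegree ≤ δ + 1) :
    F.totalDegree ≤ δ := by
  rcases eq_or_ne F 0 with rfl | hF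
  · simp
  have hne : (MvPolynomial.X 0 - MvPolynomial.C v : MvPolynomial (Fin (n + 1)) ℂ) ≠ 0 := by
    intro h0
    have h1 := ufat_coeff (n := n) v
    rw [h0, MvPolynomial.coeff_zero] at h1
    exact one_ne_zero h1.symm
  rw [MvPolynomial.totalDegree_mul_of_isDomain hne hF] at h
  have h1 : 1 ≤ (MvPolynomial.X 0 - MvPolynomial.C v :
      MvPolynomial (Fin (n + 1)) ℂ).totalDegree := by
    have h2 : (Finsupp.single 0 1 : Fin (n + 1) →₀ ℕ) ∈
        (MvPolynomial.X 0 - MvPolynomial.C v : MvPolynomial (Fin (n + 1)) ℂ).support := by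
      rw [MvPolynomial.mem_support_iff, ufat_coeff]
      exact one_ne_zero
    have h3 := MvPolynomial.le_totalDegree h2
    rwa [Finsupp.sum_single_index rfl] at h3
  omega

/-- The homogeneous linear form of the hyperplane `x_0 = v`. -/
private noncomputable def ufatL (n : ℕ) (v : ℂ) : MvPolynomial (Fin (n + 1 + 1)) ℂ :=
  MvPolynomial.X 1 - MvPolynomial.C v * MvPolynomial.X 0

private theorem ufatL_hom (n : ℕ) (v : ℂ) : (ufatL n v).IsHomogeneous 1 := by
  apply MvPolynomial.IsHomogeneous.sub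
  · exact MvPolynomial.isHomogeneous_X _ _
  · have := (MvPolynomial.isHomogeneous_C (Fin (n + 1 + 1)) v).mul
      (MvPolynomial.isHomogeneous_X ℂ (0 : Fin (n + 1 + 1)))
    simpa using this

private theorem ufatL_deh (n : ℕ) (v : ℂ) :
    dehA (n + 1) (ufatL n v) = MvPolynomial.X 0 - MvPolynomial.C v := by
  have hC : dehA (n + 1) (MvPolynomial.C v) = MvPolynomial.C v := (dehA (n + 1)).commutes v
  have h0 : dehA (n + 1) (MvPolynomial.X 0) = 1 := by
    simp [dehA]
  have h1 : dehA (n + 1) (MvPolynomial.X 1) = MvPolynomial.X 0 := by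
    rw [dehA, MvPolynomial.aeval_X]
    rfl
  rw [ufatL, map_sub, map_mul, hC, h0, h1, mul_one]

private theorem ufatL_eval (v : ℂ) (P : Fin (n + 1) → ℂ) :
    MvPolynomial.eval (Fin.cons 1 P : Fin (n + 1 + 1) → ℂ) (ufatL n v) = P 0 - v := by
  rw [ufatL, map_sub, map_mul, MvPolynomial.eval_X, MvPolynomial.eval_X, MvPolynomial.eval_C]
  have h1 : (Fin.cons 1 P : Fin (n + 1 + 1) → ℂ) 1 = P 0 := rfl
  have h0 : (Fin.cons 1 P : Fin (n + 1 + 1) → ℂ) 0 = 1 := rfl
  rw [h0, h1, mul_one]

/-- The family of the dehomogenised forms vanishing at the points `P i` to order `m i`. -/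
noncomputable def fatFam (P : Fin k → Fin (n + 1) → ℂ) (m : Fin k → ℕ) : Fam n where
  W := fun δ => (fatForms (n + 1) δ (affP P) m).map (dehA (n + 1)).toLinearMap
  deg := by
    rintro δ _ ⟨F, hF, rfl⟩
    exact dehA_degree F δ hF.1
  mul := by
    rintro δ j _ ⟨F, hF, rfl⟩ Q hQ
    obtain ⟨Q', hQ', rfl⟩ := dehA_surjective Q j hQ
    refine ⟨Q' * F, ⟨?_, fun i => vanishes_mul Q' F _ _ (hF.2 i)⟩, ?_⟩
    · rw [add_comm δ j]
      exact hQ'.mul hF.1
    · simp
  bad := univ.image fun i => P i 0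
  res := by
    intro δ v hv F hF
    obtain ⟨G, hG, hGF⟩ := hF
    have hGF' : dehA (n + 1) G = (MvPolynomial.X 0 - MvPolynomial.C v) * F := hGF
    have hdeg : F.totalDegree ≤ δ := by
      apply ufat_degree F v δ
      rw [← hGF']
      exact dehA_degree G (δ + 1) hG.1
    obtain ⟨F', hF', rfl⟩ := dehA_surjective F δ hdeg
    have hL : (ufatL n v * F').IsHomogeneous (δ + 1) := by
      rw [add_comm δ 1]
      exact (ufatL_hom n v).mul hF'
    have heq : ufatL n v * F' = G := by
      rw [← sub_eq_zero]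
      apply dehA_injective _ (δ + 1) (hL.sub hG.1)
      rw [map_sub, map_mul, ufatL_deh, hGF', sub_self]
    refine ⟨F', ⟨hF', fun i => ?_⟩, rfl⟩
    apply vanishes_of_mul (ufatL n v) F'
    · change MvPolynomial.eval (Fin.cons 1 (P i) : Fin (n + 1 + 1) → ℂ) (ufatL n v) ≠ 0
      rw [ufatL_eval, sub_ne_zero]
      intro h
      exact hv (mem_image.2 ⟨i, mem_univ _, h⟩)
    · rw [heq]
      exact hG.2 i

theorem fatFam_h (P : Fin k → Fin (n + 1) → ℂ) (m : Fin k → ℕ) (δ : ℕ) :
    (fatFam P m).h δ = Module.finrank ℂ (fatForms (n + 1) δ (affP P) m) := by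
  have h1 : (fatFam P m).W δ =
      LinearMap.range ((dehA (n + 1)).toLinearMap.domRestrict
        (fatForms (n + 1) δ (affP P) m)) := by
    rw [LinearMap.range_domRestrict]
    rfl
  rw [Fam.h, h1]
  apply LinearMap.finrank_range_of_inj
  rw [← LinearMap.ker_eq_bot, LinearMap.ker_eq_bot']
  intro F hF
  apply Subtype.ext
  exact dehA_injective F.1 δ F.2.1 hF

/-- Points with nonzero first coordinate may be normalised. -/
theorem finrank_normalise {r δ : ℕ} (p : Fin k → Fin (r + 1) → ℂ) (hp : ∀ i, p i 0 ≠ 0)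
    (m : Fin k → ℕ) :
    Module.finrank ℂ (fatForms r δ (fun i => Fin.cons 1 fun j => p i j.succ / p i 0) m) =
      Module.finrank ℂ (fatForms r δ p m) := by
  have hq : ∀ i, (Fin.cons 1 fun j => p i j.succ / p i 0 : Fin (r + 1) → ℂ) =
      (p i 0)⁻¹ • p i := by
    intro i
    funext j
    refine Fin.cases ?_ (fun j => ?_) j
    · rw [Fin.cons_zero, Pi.smul_apply, smul_eq_mul, inv_mul_cancel₀ (hp i)]
    · rw [Fin.cons_succ, Pi.smul_apply, smul_eq_mul, div_eq_inv_mul]
  have hiff : ∀ (F : MvPolynomial (Fin (r + 1)) ℂ), F.IsHomogeneous δ → ∀ i,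
      (VanishesToOrder F (Fin.cons 1 fun j => p i j.succ / p i 0 : Fin (r + 1) → ℂ) (m i) ↔
        VanishesToOrder F (p i) (m i)) := by
    intro F hF i
    rw [hq i]
    constructor
    · intro h
      have := vanishes_smul F δ hF _ (p i 0) (hp i) (m i) h
      rwa [smul_smul, mul_inv_cancel₀ (hp i), one_smul] at this
    · exact vanishes_smul F δ hF _ _ (inv_ne_zero (hp i)) (m i)
  have h : fatForms r δ (fun i => Fin.cons 1 fun j => p i j.succ / p i 0) m =
      fatForms r δ p m := by
    ext F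
    constructor
    · rintro ⟨h1, h2⟩
      exact ⟨h1, fun i => (hiff F h1 i).1 (h2 i)⟩
    · rintro ⟨h1, h2⟩
      exact ⟨h1, fun i => (hiff F h1 i).2 (h2 i)⟩
  rw [h]

/-- The special configuration: if the points outside `J` and `x` simple points kill the space of degree
`d` of the family of the points of `J` (the others having multiplicity `0`) then there is a
configuration with first coordinates `1` and `dim V_d ≤ x`. -/
theorem special_of_fatFam (P : Fin k → Fin (n + 1) → ℂ) (m : Fin k → ℕ) (J : Finset (Fin k))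
    (d x : ℕ)
    (h : Fk ((fatFam P fun i => if i ∈ J then m i else 0).W d)
      ((univ : Finset ({i : Fin k // i ∉ J} ⊕ Fin x)).val.map
        (Sum.elim (fun i => m i.1) fun _ => 1))) :
    ∃ p₀ : Fin k → Fin (n + 1 + 1) → ℂ, (∀ i, p₀ i 0 = 1) ∧
      Module.finrank ℂ (fatForms (n + 1) d p₀ m) ≤ x := by
  classical
  rw [Fk_iff (gU n (fun i : Fin 0 => (i.elim0 : ℂ))), Multiset.map_map, GMP_iff] at h
  obtain ⟨pos, hpos⟩ := h
  let p₀ : Fin k → Fin (n + 1 + 1) → ℂ := fun i =>
    if hi : i ∈ J then Fin.cons 1 (P i) else Fin.cons 1 (pos (Sum.inl ⟨i, hi⟩))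
  refine ⟨p₀, fun i => ?_, ?_⟩
  · simp only [p₀]
    split_ifs <;> rfl
  let Ψ : fatForms (n + 1) d p₀ m →ₗ[ℂ] (Fin x → ℂ) :=
    { toFun := fun F j => tay (dehA (n + 1) F.1) (pos (Sum.inr j)) 0
      map_add' := fun F G => by
        funext j
        simp only [Submodule.coe_add, map_add, tay_add, Pi.add_apply]
      map_smul' := fun c F => by
        funext j
        simp only [Submodule.coe_smul, map_smul, tay_smul, RingHom.id_apply, Pi.smul_apply,
          smul_eq_mul, Algebra.algebraMap_self] }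
  have hΨ : Function.Injective Ψ := by
    rw [← LinearMap.ker_eq_bot, LinearMap.ker_eq_bot']
    intro F hF
    have hFh : F.1.IsHomogeneous d := F.2.1
    apply Subtype.ext
    change F.1 = 0
    apply dehA_injective F.1 d hFh
    apply hpos
    · refine ⟨F.1, ⟨hFh, fun i => ?_⟩, rfl⟩
      by_cases hi : i ∈ J
      · simp only [if_pos hi]
        have h1 := F.2.2 i
        have h2 : p₀ i = Fin.cons 1 (P i) := by
          simp only [p₀]
          rw [dif_pos hi]
        rw [h2] at h1
        exact h1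
      · simp only [if_neg hi]
        intro β hβ
        exact absurd hβ (Nat.not_lt_zero _)
    · rintro (i | j)
      · have h1 := F.2.2 i.1
        have h2 : p₀ i.1 = Fin.cons 1 (pos (Sum.inl i)) := by
          simp only [p₀]
          rw [dif_neg i.2]
        rw [h2] at h1
        intro α hα
        exact dehA_vanish F.1 _ (m i.1) h1 α hα
      · intro α hα
        have hα0 : α = 0 := by
          change ∑ i, α i < 1 at hα
          have h2 : ∑ i, α i = 0 := by omega
          rw [sum_eq_zero_iff] at h2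
          funext i
          exact h2 i (mem_univ _)
        subst hα0
        exact congrFun hF j
  have := LinearMap.finrank_le_finrank_of_injective hΨ
  rwa [Module.finrank_fintype_fun_eq_card, Fintype.card_fin] at this

end Pool.Agent.H18.Ua
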