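import Pool.Agent.H18.Ua.UAll
import Pool.Agent.H18.Ua.UFat
import Pool.Agent.H18.Pr.CremR

/-!
# Module UFinal (UA): the theorems for general points
-/

namespace Pool.Agent.H18.Ua

open Finset Pool.Agent.H18.Ex Pool.Agent.H18.Cub Pool.Agent.H18.Pr Pool.Agent.H18.Fat

/-- From exactness to general points. -/
theorem general_of_exact {n k : ℕ} (P : Fin k → Fin (n + 1) → ℂ) (m : Fin k → ℕ)
    (J : Finset (Fin k)) {M : ℕ} (hM : 1 ≤ M) (hJ : ∀ i, i ∉ J → m i ≤ M) (d : ℕ)
    (h : ∀ G : Multiset ℕ, (∀ μ ∈ G, μ ≤ M) →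
      (fatFam P fun i => if i ∈ J then m i else 0).h d ≤ (G.map (ell (n + 1))).sum →
      Fk ((fatFam P fun i => if i ∈ J then m i else 0).W d) G) (v : ℕ)
    (hv : ((fatFam P fun i => if i ∈ J then m i else 0).h d : ℤ) ≤
      v + ∑ i ∈ univ.filter (fun i => i ∉ J), ((m i + (n + 1) - 1).choose (n + 1) : ℤ)) :
    ∃ p₀ : Fin k → Fin (n + 1 + 1) → ℂ, (∀ i, p₀ i 0 = 1) ∧
      Module.finrank ℂ (fatForms (n + 1) d p₀ m) ≤ v := by
  classical
  apply special_of_fatFam P m J d v
  apply h
  · intro μ hμ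
    obtain ⟨x, _, rfl⟩ := Multiset.mem_map.1 hμ
    rcases x with i | j
    · exact hJ i.1 i.2
    · exact hM
  · rw [Multiset.map_map]
    change _ ≤ ∑ x : {i : Fin k // i ∉ J} ⊕ Fin v,
      (ell (n + 1) ∘ Sum.elim (fun i : {i : Fin k // i ∉ J} => m i.1) fun _ => 1) x
    rw [Fintype.sum_sum_type]
    have h1 : ∑ j : Fin v, (ell (n + 1) ∘ Sum.elim (fun i : {i : Fin k // i ∉ J} => m i.1)
        fun _ => 1) (Sum.inr j) = v := by
      simp [ell_one]
    have h2 : ∑ i : {i : Fin k // i ∉ J}, (ell (n + 1) ∘ Sum.elim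
        (fun i : {i : Fin k // i ∉ J} => m i.1) fun _ : Fin v => 1) (Sum.inl i) =
        ∑ i ∈ univ.filter (fun i => i ∉ J), ell (n + 1) (m i) := by
      rw [sum_subtype (p := fun i => i ∉ J) (univ.filter fun i => i ∉ J) (by simp)
        (fun i => ell (n + 1) (m i))]
      rfl
    have h9 : ∑ i ∈ univ.filter (fun i => i ∉ J), ((m i + (n + 1) - 1).choose (n + 1) : ℤ) =
        ((∑ i ∈ univ.filter (fun i => i ∉ J), ell (n + 1) (m i) : ℕ) : ℤ) := by
      push_cast
      rfl
    rw [h1, h2]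
    rw [h9] at hv
    omega

/-- The dimensions of a family of fat points from the degree on in which the points impose
independent conditions. -/
private theorem fatFam_h_eq {n k : ℕ} (P : Fin k → Fin (n + 1) → ℂ) (m : Fin k → ℕ) (e L : ℕ)
    (hL : ∑ i, (m i + (n + 1) - 1).choose (n + 1) = L)
    (h : (fatFam P m).h e + L ≤ (e + (n + 1)).choose (n + 1)) (δ : ℕ) :
    (fatFam P m).h (e + δ) + L = (e + δ + (n + 1)).choose (n + 1) := by
  have hge : ∀ δ, (δ + (n + 1)).choose (n + 1) ≤ (fatFam P m).h δ + L := by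
    intro δ
    have h1 := finrank_fatForms_ge (r := n + 1) (d := δ) (by omega)
      (p := affP P) (fun i => by
        change (1 : ℂ) ≠ 0
        exact one_ne_zero) m
    rw [← fatFam_h] at h1
    have h2 : ∑ i, ((m i + (n + 1) - 1).choose (n + 1) : ℤ) = (L : ℤ) := by
      rw [← hL]
      push_cast
      rfl
    rw [h2] at h1
    omega
  have hle : ∀ δ, (fatFam P m).h (e + δ) + L ≤ (e + δ + (n + 1)).choose (n + 1) := by
    intro δ
    induction δ with
    | zero => exact h
    | succ δ ih =>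
      have h1 := (fatFam P m).h_succ_le (e + δ)
      have h2 : (e + (δ + 1) + (n + 1)).choose (n + 1) =
          (e + δ + 1 + n).choose n + (e + δ + (n + 1)).choose (n + 1) := by
        have h3 : e + (δ + 1) + (n + 1) = (e + δ + 1 + n) + 1 := by omega
        rw [h3, Nat.choose_succ_succ]
        congr 2
        omega
      have h4 : e + (δ + 1) = e + δ + 1 := by omega
      rw [h2, h4]
      omega
  exact le_antisymm (hle δ) (hge _)

/-- Every dimension: if the points of `J` impose independent conditions in degree `d - DU r M` then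
all points impose maximal conditions in degree `d`. -/
theorem ua_main (r : ℕ) (hr : 2 ≤ r) (M : ℕ) (hM : 1 ≤ M) (k d : ℕ) (m : Fin k → ℕ)
    (J : Finset (Fin k)) (hJ : ∀ i, i ∉ J → m i ≤ M) (hd : DU r M ≤ d)
    (h : ForGeneralPoints r k fun p =>
      (Module.finrank ℂ (fatForms r (d - DU r M) p fun i => if i ∈ J then m i else 0) : ℤ) =
        ((d - DU r M + r).choose r : ℤ) - ∑ i ∈ J, ((m i + r - 1).choose r : ℤ)) :
    ForGeneralPoints r k fun p => ImposesMaximalConditions r d p m := by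
  classical
  obtain ⟨n, rfl⟩ : ∃ n, r = n + 1 := ⟨r - 1, by omega⟩
  have hn : 1 ≤ n := by omega
  -- a good position of the points
  obtain ⟨g, hg0, hg⟩ := h.and (general_ne_zero (n + 1) k)
  obtain ⟨x, hx⟩ : ∃ x : Fin k × Fin (n + 1 + 1) → ℂ, MvPolynomial.eval x g ≠ 0 := by
    by_contra hcon
    push Not at hcon
    exact hg0 (MvPolynomial.funext fun x => by rw [hcon x, map_zero])
  obtain ⟨hp1, hp0⟩ := hg (fun i j => x (i, j)) hx
  set p : Fin k → Fin (n + 1 + 1) → ℂ := fun i j => x (i, j) with hp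
  set mJ : Fin k → ℕ := fun i => if i ∈ J then m i else 0 with hmJ
  set P : Fin k → Fin (n + 1) → ℂ := fun i j => p i j.succ / p i 0 with hP
  obtain ⟨e, rfl⟩ := Nat.exists_eq_add_of_le hd
  have hee : DU (n + 1) M + e - DU (n + 1) M = e := by omega
  rw [hee] at hp1
  have hnorm := finrank_normalise (δ := e) p hp0 mJ
  change Module.finrank ℂ (fatForms (n + 1) e (affP P) mJ) = _ at hnorm
  rw [← fatFam_h] at hnorm
  -- the length of the given scheme
  set L : ℕ := ∑ i ∈ J, (m i + (n + 1) - 1).choose (n + 1) with hL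
  have hLJ : ∑ i, (mJ i + (n + 1) - 1).choose (n + 1) = L := by
    rw [hL, ← sum_filter_add_sum_filter_not univ (fun i => i ∈ J)
      (fun i => (mJ i + (n + 1) - 1).choose (n + 1))]
    have h1 : ∑ i ∈ univ.filter (fun i => i ∉ J), (mJ i + (n + 1) - 1).choose (n + 1) = 0 := by
      apply sum_eq_zero
      intro i hi
      have h2 : mJ i = 0 := by
        simp only [hmJ]
        rw [if_neg (mem_filter.1 hi).2]
      rw [h2]
      exact Nat.choose_eq_zero_of_lt (by omega)
    rw [h1, add_zero]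
    have h3 : univ.filter (fun i => i ∈ J) = J := by
      ext i
      simp
    rw [h3]
    refine sum_congr rfl fun i hi => ?_
    have h2 : mJ i = m i := by
      simp only [hmJ]
      rw [if_pos hi]
    rw [h2]
  have hcast : ∑ i ∈ J, ((m i + (n + 1) - 1).choose (n + 1) : ℤ) = (L : ℤ) := by
    rw [hL]
    push_cast
    rfl
  have h0 : (fatFam P mJ).h e + L ≤ (e + (n + 1)).choose (n + 1) := by
    rw [← hnorm, hcast] at hp1
    omega
  have hh := fatFam_h_eq P mJ e L hLJ h0
  -- exactness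
  have hex : ∀ G : Multiset ℕ, (∀ μ ∈ G, μ ≤ M) →
      (fatFam P mJ).h (DU (n + 1) M + e) ≤ (G.map (ell (n + 1))).sum →
      Fk ((fatFam P mJ).W (DU (n + 1) M + e)) G := by
    intro G hG hsum
    apply Fam.exact_full hn hM (fatFam P mJ) (DU (n + 1) M + e) (by omega) _
      (fun δ hδ => ahx_all n hn hM δ hδ) G hG hsum
    intro i hi
    have h1 := CU_le_DU (n := n) hM
    obtain ⟨j, hj⟩ := Nat.exists_eq_add_of_le (show i + 1 ≤ DU (n + 1) M by omega)
    have h2 := hh (j + 1)
    have h3 := hh j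
    have h4 : DU (n + 1) M + e - i = e + (j + 1) := by omega
    have h5 : DU (n + 1) M + e - i - 1 = e + j := by omega
    rw [h5, h4]
    have h6 : (e + (j + 1) + (n + 1)).choose (n + 1) =
        (e + (j + 1) + n).choose n + (e + j + (n + 1)).choose (n + 1) := by
      have h7 : e + (j + 1) + (n + 1) = (e + (j + 1) + n) + 1 := by omega
      rw [h7, Nat.choose_succ_succ]
      congr 2
      omega
    omega
  -- the expected dimension
  set d := DU (n + 1) M + e with hdd
  set R₀ : ℤ := ((d + (n + 1)).choose (n + 1) : ℤ) -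
    ∑ i, ((m i + (n + 1) - 1).choose (n + 1) : ℤ) with hR₀
  obtain ⟨v, hv⟩ : ∃ v : ℕ, (v : ℤ) = max 0 R₀ :=
    ⟨(max 0 R₀).toNat, Int.toNat_of_nonneg (le_max_left _ _)⟩
  have hdim : ((fatFam P mJ).h d : ℤ) ≤
      v + ∑ i ∈ univ.filter (fun i => i ∉ J), ((m i + (n + 1) - 1).choose (n + 1) : ℤ) := by
    have h1 := hh (DU (n + 1) M)
    rw [show e + DU (n + 1) M = d by omega] at h1
    have h2 := sum_split J fun i => ((m i + (n + 1) - 1).choose (n + 1) : ℤ)
    rw [hcast] at h2
    have h3 : R₀ ≤ v := by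
      rw [hv]
      exact le_max_right _ _
    rw [hR₀, h2] at h3
    omega
  obtain ⟨p₀, hq1, hq2⟩ := general_of_exact P m J hM hJ d hex v hdim
  refine general_of_special (by omega) m p₀ (fun i => by rw [hq1 i]; exact one_ne_zero) ?_
  have hge := finrank_fatForms_ge (d := d) (by omega : 1 ≤ n + 1)
    (fun i => by rw [hq1 i]; exact one_ne_zero : ∀ i, p₀ i 0 ≠ 0) m
  unfold ImposesMaximalConditions
  have h9 : ((Module.finrank ℂ (fatForms (n + 1) d p₀ m) : ℕ) : ℤ) ≤ v := by exact_mod_cast hq2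
  rw [hv] at h9
  apply le_antisymm h9
  apply max_le
  · positivity
  · exact hge

end Pool.Agent.H18.Ua
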