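import Pool.Agent.H18.Ua.UDefs

/-!
# Module UMul (UA): conditions and products
-/

namespace Pool.Agent.H18.Ua

open Finset Pool.Agent.H18.Ex Pool.Agent.H18.Cub Pool.Agent.H18.Pr

variable {ι Λ : Type} [Fintype ι] [DecidableEq ι]

/-- The index sets of the conditions are closed under passing to smaller multi-indices. -/
theorem idx_down (g : Lines Λ ι) (k : Kind Λ) {b b' : ι → ℕ} (hb : g.Idx k b)
    (h : ∀ i, b' i ≤ b i) : g.Idx k b' := by
  cases k with
  | free m =>
    have h1 : ∑ i, b i < m := hb
    have h2 : ∑ i, b' i ≤ ∑ i, b i := sum_le_sum fun i _ => h i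
    exact (show ∑ i, b' i < m by omega)
  | forced l c e =>
    have h1 : ∑ i, b i < c ∧ b (g.co l) + e ≤ c := hb
    have h2 : ∑ i, b' i ≤ ∑ i, b i := sum_le_sum fun i _ => h i
    have h3 := h (g.co l)
    exact (show ∑ i, b' i < c ∧ b' (g.co l) + e ≤ c by omega)

/-- The product formula for Taylor coefficients. -/
private theorem tay_mul (Q F : MvPolynomial ι ℂ) (q : ι → ℂ) (b : ι → ℕ) :
    tay (Q * F) q b = ∑ x ∈ antidiagonal (Finsupp.equivFunOnFinite.symm b),
      tay Q q (⇑x.1) * tay F q (⇑x.2) := by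
  rw [tay, map_mul, MvPolynomial.coeff_mul]
  refine sum_congr rfl fun x _ => ?_
  have h : ∀ a : ι →₀ ℕ, Finsupp.equivFunOnFinite.symm (⇑a : ι → ℕ) = a := by
    intro a; ext i; simp
  rw [tay, tay, h, h]

private theorem anti_le {b : ι → ℕ} {x : (ι →₀ ℕ) × (ι →₀ ℕ)}
    (hx : x ∈ antidiagonal (Finsupp.equivFunOnFinite.symm b)) (i : ι) : x.1 i + x.2 i = b i := by
  rw [HasAntidiagonal.mem_antidiagonal] at hx
  have h := DFunLike.congr_fun hx i
  simpa using h

theorem satP_mul (g : Lines Λ ι) (Q F : MvPolynomial ι ℂ) (k : Kind Λ) (q : ι → ℂ)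
    (h : SatP g F k q) : SatP g (Q * F) k q := by
  intro b hb
  rw [tay_mul]
  refine sum_eq_zero fun x hx => ?_
  rw [h (⇑x.2) (idx_down g k hb fun i => by have := anti_le hx i; omega), mul_zero]

/-- Units may be cancelled (induction on `∑ i, b i`). -/
theorem satP_of_mul (g : Lines Λ ι) (Q F : MvPolynomial ι ℂ) (k : Kind Λ) (q : ι → ℂ)
    (hQ : MvPolynomial.eval (g.pt k q) Q ≠ 0) (h : SatP g (Q * F) k q) : SatP g F k q := by
  have key : ∀ N : ℕ, ∀ b : ι → ℕ, ∑ i, b i < N → g.Idx k b → tay F (g.pt k q) b = 0 := by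
    intro N
    induction N with
    | zero => intro b hb; omega
    | succ N ih =>
      intro b hN hb
      have h1 := h b hb
      rw [tay_mul] at h1
      have h2 : ((0 : ι →₀ ℕ), Finsupp.equivFunOnFinite.symm b) ∈
          antidiagonal (Finsupp.equivFunOnFinite.symm b) := by
        rw [HasAntidiagonal.mem_antidiagonal, zero_add]
      rw [sum_eq_single_of_mem _ h2] at h1
      · have h3 : tay Q (g.pt k q) (⇑(0 : ι →₀ ℕ)) = MvPolynomial.eval (g.pt k q) Q := by
          have h4 : (⇑(0 : ι →₀ ℕ) : ι → ℕ) = 0 := by funext i; rfl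
          rw [h4, tay_zero_right]
        have h5 : (⇑(Finsupp.equivFunOnFinite.symm b) : ι → ℕ) = b := by funext i; simp
        simp only at h1
        rw [h3, h5] at h1
        exact (mul_eq_zero.1 h1).resolve_left hQ
      · intro x hx hne
        have h6 : ∀ i, x.1 i + x.2 i = b i := anti_le hx
        rw [ih (⇑x.2) ?_ (idx_down g k hb fun i => by have := h6 i; omega), mul_zero]
        have h7 : ∑ i, x.1 i + ∑ i, x.2 i = ∑ i, b i := by
          rw [← sum_add_distrib]
          exact sum_congr rfl fun i _ => h6 i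
        have h8 : 0 < ∑ i, x.1 i := by
          by_contra h9
          apply hne
          have h10 : ∑ i, x.1 i = 0 := by omega
          rw [sum_eq_zero_iff] at h10
          have h11 : x.1 = 0 := by
            ext i
            exact h10 i (mem_univ i)
          have h12 : x.2 = Finsupp.equivFunOnFinite.symm b := by
            ext i
            have := h6 i
            rw [h11] at this
            simpa using this
          exact Prod.ext h11 h12
        omega
  intro b hb
  exact key _ b (Nat.lt_succ_self _) hb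

private theorem totalDegree_trl (F : MvPolynomial ι ℂ) (q : ι → ℂ) :
    (trl q F).totalDegree ≤ F.totalDegree := by
  conv_lhs => rw [F.as_sum]
  rw [map_sum]
  refine MvPolynomial.totalDegree_finsetSum_le fun a ha => ?_
  rw [trl, MvPolynomial.aeval_monomial]
  refine (MvPolynomial.totalDegree_mul _ _).trans ?_
  rw [MvPolynomial.algebraMap_eq, MvPolynomial.totalDegree_C, zero_add]
  refine le_trans ?_ (MvPolynomial.le_totalDegree ha)
  rw [Finsupp.prod]
  refine (MvPolynomial.totalDegree_finsetProd _ _).trans ?_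
  rw [Finsupp.sum]
  refine sum_le_sum fun i _ => ?_
  refine (MvPolynomial.totalDegree_pow _ _).trans ?_
  have h1 : (MvPolynomial.X i + MvPolynomial.C (q i) : MvPolynomial ι ℂ).totalDegree ≤ 1 := by
    refine (MvPolynomial.totalDegree_add _ _).trans ?_
    rw [MvPolynomial.totalDegree_X, MvPolynomial.totalDegree_C]
    simp
  calc a i * (MvPolynomial.X i + MvPolynomial.C (q i) : MvPolynomial ι ℂ).totalDegree ≤ a i * 1 :=
        Nat.mul_le_mul_left _ h1
    _ = a i := mul_one _

private theorem trl_inj (q : ι → ℂ) : Function.Injective (trl q : MvPolynomial ι ℂ →ₐ[ℂ] _) := by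
  have h : (trl (fun i => -q i)).comp (trl q) = AlgHom.id ℂ (MvPolynomial ι ℂ) := by
    apply MvPolynomial.algHom_ext
    intro i
    have h1 : trl (fun i => -q i) (MvPolynomial.C (q i) : MvPolynomial ι ℂ) =
        (MvPolynomial.C (q i) : MvPolynomial ι ℂ) := by
      rw [← MvPolynomial.algebraMap_eq, AlgHom.commutes]
    rw [AlgHom.comp_apply, show trl q (MvPolynomial.X i : MvPolynomial ι ℂ) =
      MvPolynomial.X i + MvPolynomial.C (q i) from by simp [trl], map_add, h1,
      show trl (fun i => -q i) (MvPolynomial.X i : MvPolynomial ι ℂ) =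
      MvPolynomial.X i + MvPolynomial.C (-q i) from by simp [trl], MvPolynomial.C_neg]
    simp
  intro F G hFG
  have h2 := congrArg (trl (fun i => -q i)) hFG
  rw [← AlgHom.comp_apply, ← AlgHom.comp_apply, h] at h2
  exact h2

/-- A polynomial of degree less than `m` vanishing to order `m` at a point is zero. -/
theorem eq_zero_of_vanish (F : MvPolynomial ι ℂ) (q : ι → ℂ) (m : ℕ) (hdeg : F.totalDegree < m)
    (h : ∀ b : ι → ℕ, ∑ i, b i < m → tay F q b = 0) : F = 0 := by
  apply trl_inj q
  rw [map_zero]
  ext a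
  rw [MvPolynomial.coeff_zero]
  by_contra hne
  have h1 : a ∈ (trl q F).support := MvPolynomial.mem_support_iff.2 hne
  have h2 := MvPolynomial.le_totalDegree h1
  have h3 := totalDegree_trl F q
  have h4 : ∑ i, a i < m := by
    have h5 : (a.sum fun _ e => e) = ∑ i, a i := Finsupp.sum_fintype _ _ (by intro i; rfl)
    rw [h5] at h2
    omega
  apply hne
  have h6 := h (⇑a) h4
  rw [tay] at h6
  have h7 : Finsupp.equivFunOnFinite.symm (⇑a : ι → ℕ) = a := by ext i; simp
  rwa [h7] at h6

end Pool.Agent.H18.Ua
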