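import Pool.Agent.H18.Ua.UDefs

/-!
# Module USimple (UA): simple points and dimensions
-/

namespace Pool.Agent.H18.Ua

open Finset Pool.Agent.H18.Ex Pool.Agent.H18.Cub Pool.Agent.H18.Pr

variable {ι Λ : Type} [Fintype ι] [DecidableEq ι]

/-- A simple free point: the value is zero. -/
private theorem usimple_sat (g : Lines Λ ι) (F : MvPolynomial ι ℂ) (q : ι → ℂ) :
    SatP g F (Kind.free 1) q ↔ MvPolynomial.eval q F = 0 := by
  constructor
  · intro h
    have h2 : tay F q 0 = 0 := h 0 (by simp [Lines.Idx])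
    rwa [tay_zero_right] at h2
  · intro h b hb
    have hb0 : b = 0 := by
      funext i
      have h1 : ∑ i, b i < 1 := hb
      have h2 : ∑ i, b i = 0 := by omega
      exact (Finset.sum_eq_zero_iff.1 h2) i (Finset.mem_univ i)
    rw [hb0]
    show tay F q 0 = 0
    rw [tay_zero_right]
    exact h

/-- Finitely many values determine the elements of a finite dimensional space. -/
private theorem usimple_points (x : ℕ) : ∀ W : Submodule ℂ (MvPolynomial ι ℂ),
    FiniteDimensional ℂ W → Module.finrank ℂ W ≤ x →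
    ∃ pos : Fin x → ι → ℂ, ∀ F ∈ W, (∀ i, MvPolynomial.eval (pos i) F = 0) → F = 0 := by
  induction x with
  | zero =>
    intro W hfd h
    refine ⟨fun i => i.elim0, fun F hF _ => ?_⟩
    have h1 : Module.finrank ℂ W = 0 := Nat.le_zero.1 h
    have h2 : W = ⊥ := Submodule.finrank_eq_zero.1 h1
    rw [h2] at hF
    exact (Submodule.mem_bot ℂ).1 hF
  | succ x ih =>
    intro W hfd h
    by_cases hW : W = ⊥
    · refine ⟨fun _ _ => 0, fun F hF _ => ?_⟩
      rw [hW] at hF
      exact (Submodule.mem_bot ℂ).1 hF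
    · obtain ⟨F0, hF0, hne⟩ := (Submodule.ne_bot_iff W).1 hW
      have hq : ∃ q : ι → ℂ, MvPolynomial.eval q F0 ≠ 0 := by
        by_contra hno
        push Not at hno
        exact hne (MvPolynomial.funext fun q => by rw [hno q, map_zero])
      obtain ⟨q, hq⟩ := hq
      let W' : Submodule ℂ (MvPolynomial ι ℂ) :=
        W ⊓ LinearMap.ker (MvPolynomial.aeval q : MvPolynomial ι ℂ →ₐ[ℂ] ℂ).toLinearMap
      have hle : W' ≤ W := inf_le_left
      have hlt : W' < W := by
        refine lt_of_le_of_ne hle fun heq => ?_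
        have h1 : F0 ∈ W' := by rw [heq]; exact hF0
        have h2 : (MvPolynomial.aeval q : MvPolynomial ι ℂ →ₐ[ℂ] ℂ) F0 = 0 :=
          LinearMap.mem_ker.1 h1.2
        rw [MvPolynomial.aeval_eq_eval] at h2
        exact hq h2
      have hfd' : FiniteDimensional ℂ W' := Submodule.finiteDimensional_of_le hle
      have hrk : Module.finrank ℂ W' < Module.finrank ℂ W := Submodule.finrank_lt_finrank_of_lt hlt
      obtain ⟨pos, hpos⟩ := ih W' hfd' (by omega)
      refine ⟨Fin.cons q pos, fun F hF hv => ?_⟩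
      refine hpos F ⟨hF, ?_⟩ fun i => ?_
      · have h1 := hv 0
        rw [Fin.cons_zero] at h1
        show (MvPolynomial.aeval q : MvPolynomial ι ℂ →ₐ[ℂ] ℂ) F = 0
        rw [MvPolynomial.aeval_eq_eval]
        exact h1
      · have h1 := hv i.succ
        rwa [Fin.cons_succ] at h1

private theorem usimple_replicate {X : Type} (s : ℕ) (x : X) : Multiset.replicate s x
      = (univ : Finset (Fin s)).val.map (fun _ => x) := by
  rw [Multiset.map_const', Finset.card_val, Finset.card_univ, Fintype.card_fin]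

/-- Simple points reduce the dimension one by one. -/
theorem gmp_simple (g : Lines Λ ι) (W : Submodule ℂ (MvPolynomial ι ℂ)) [FiniteDimensional ℂ W]
    (x : ℕ) (h : Module.finrank ℂ W ≤ x) : GMP g W (Multiset.replicate x (Kind.free 1)) := by
  rw [usimple_replicate, GMP_iff]
  obtain ⟨pos, hpos⟩ := usimple_points x W inferInstance h
  exact ⟨pos, fun F hF hf => hpos F hF fun i => (usimple_sat g F (pos i)).1 (hf i)⟩

/-- Positions for which the dimension is at most `x`. -/
theorem exists_pos_finrank (g : Lines Λ ι) (W : Submodule ℂ (MvPolynomial ι ℂ))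
    [FiniteDimensional ℂ W] {κ : Type} [Fintype κ] (k : κ → Kind Λ) (x : ℕ)
    (h : GMP g W ((univ : Finset κ).val.map k + Multiset.replicate x (Kind.free 1))) :
    ∃ pos : κ → ι → ℂ, Module.finrank ℂ (kerP g W k pos) ≤ x := by
  rw [usimple_replicate, ← multi_map_sum, GMP_iff] at h
  obtain ⟨pos, hpos⟩ := h
  refine ⟨fun i => pos (Sum.inl i), ?_⟩
  let K := kerP g W k fun i => pos (Sum.inl i)
  let ev : K →ₗ[ℂ] (Fin x → ℂ) := LinearMap.pi fun i =>
    (MvPolynomial.aeval (pos (Sum.inr i)) : MvPolynomial ι ℂ →ₐ[ℂ] ℂ).toLinearMap.comp K.subtype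
  have hev : ∀ (F : K) (i : Fin x), ev F i = MvPolynomial.eval (pos (Sum.inr i)) (F : MvPolynomial ι ℂ) := by
    intro F i
    show (MvPolynomial.aeval (pos (Sum.inr i)) : MvPolynomial ι ℂ →ₐ[ℂ] ℂ) (F : MvPolynomial ι ℂ) = _
    rw [MvPolynomial.aeval_eq_eval]
  have hinj : Function.Injective ev := by
    rw [← LinearMap.ker_eq_bot, LinearMap.ker_eq_bot']
    intro F hF
    apply Subtype.ext
    have hFK : (F : MvPolynomial ι ℂ) ∈ K := F.2
    refine hpos F hFK.1 fun i => ?_
    cases i with
    | inl i => exact hFK.2 i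
    | inr i =>
      refine (usimple_sat g _ _).2 ?_
      rw [← hev F i, hF]
      rfl
  have h1 := LinearMap.finrank_le_finrank_of_injective hinj
  rwa [Module.finrank_fin_fun] at h1

theorem gmp_of_pos (g : Lines Λ ι) (W : Submodule ℂ (MvPolynomial ι ℂ))
    [FiniteDimensional ℂ W] {κ : Type} [Fintype κ] (k : κ → Kind Λ) (x : ℕ)
    (pos : κ → ι → ℂ) (h : Module.finrank ℂ (kerP g W k pos) ≤ x) :
    GMP g W ((univ : Finset κ).val.map k + Multiset.replicate x (Kind.free 1)) := by
  rw [usimple_replicate, ← multi_map_sum, GMP_iff]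
  have hfd : FiniteDimensional ℂ (kerP g W k pos) := Submodule.finiteDimensional_of_le kerP_le
  obtain ⟨pos', hpos'⟩ := usimple_points x (kerP g W k pos) hfd h
  refine ⟨Sum.elim pos pos', fun F hF hf => ?_⟩
  refine hpos' F ⟨hF, fun i => ?_⟩ fun i => ?_
  · exact hf (Sum.inl i)
  · exact (usimple_sat g F (pos' i)).1 (hf (Sum.inr i))

end Pool.Agent.H18.Ua
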