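import Pool.Agent.H18.Ua.UBranch
import Pool.Agent.H18.Ua.UPhase
import Pool.Agent.H18.Ua.USys

/-!
# Module UMain (UA): exactness
-/

namespace Pool.Agent.H18.Ua

open Finset Pool.Agent.H18.Ex Pool.Agent.H18.Cub Pool.Agent.H18.Pr

variable {Λ : Type} [Fintype Λ] [DecidableEq Λ] {n : ℕ}

/-- Removing the points of multiplicity `0` and separating the simple points. -/
private theorem split_G (G : Multiset ℕ) {M : ℕ} (hG : ∀ m ∈ G, m ≤ M) :
    ∃ (G₂ : Multiset ℕ) (s : ℕ), (∀ m ∈ G₂, 2 ≤ m ∧ m ≤ M) ∧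
      G₂ + Multiset.replicate s 1 ≤ G ∧
      (G.map (ell (n + 1))).sum = (G₂.map (ell (n + 1))).sum + s := by
  induction G using Multiset.induction_on with
  | empty => exact ⟨0, 0, by simp, by simp, by simp⟩
  | cons m G ih =>
    obtain ⟨G₂, s, h1, h2, h3⟩ := ih fun m' hm' => hG m' (Multiset.mem_cons_of_mem hm')
    have hm := hG m (Multiset.mem_cons_self m G)
    rw [Multiset.map_cons, Multiset.sum_cons, h3]
    by_cases h : 2 ≤ m
    · refine ⟨m ::ₘ G₂, s, ?_, ?_, ?_⟩
      · intro m' hm'
        rcases Multiset.mem_cons.1 hm' with rfl | hm'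
        · exact ⟨h, hm⟩
        · exact h1 m' hm'
      · rw [Multiset.cons_add]
        exact Multiset.cons_le_cons m h2
      · rw [Multiset.map_cons, Multiset.sum_cons]
        ring
    · by_cases h' : m = 1
      · subst h'
        refine ⟨G₂, s + 1, h1, ?_, ?_⟩
        · rw [Multiset.replicate_succ, Multiset.add_cons]
          exact Multiset.cons_le_cons 1 h2
        · rw [ell_one]
          ring
      · have h0 : m = 0 := by omega
        subst h0
        refine ⟨G₂, s, h1, h2.trans (Multiset.le_cons_self _ _), ?_⟩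
        rw [ell_zero (by omega)]
        ring

/-- Exactness for a state with the numerical properties.  Remove the points of multiplicity `0`; let
`s` be the number of simple points.  If `M * t ≤ s` use `NumU.kill` with `S = 0` and simple points
(`FullN`).  Otherwise `phase_all`, `bridge_multi` and `branch`. -/
theorem numU_exact (Y : SysN Λ n) {M t : ℕ} {N : Λ → ℕ} (H : NumU Y M t N) (G : Multiset ℕ)
    (hG : ∀ m ∈ G, m ≤ M) (hsum : Y.R N ≤ ((G.map (ell (n + 1))).sum : ℕ)) :
    Y.K N (G.map Kind.free) := by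
  obtain ⟨G₂, s, h1, h2, h3⟩ := split_G (n := n) G hG
  have hreg : RegU M N N := fun i => ⟨le_rfl, by omega⟩
  rw [h3] at hsum
  have hkey : Y.K N (G₂.map Kind.free + Multiset.replicate s (Kind.free 1)) := by
    by_cases hs : M * t ≤ s
    · obtain ⟨hR1, hR2⟩ := H.full N hreg
      have hx : Y.R N ≤ ((Y.R N).toNat : ℕ) := Int.self_le_toNat _
      have h4 := H.kill N hreg 0 (Y.R N).toNat s G₂
        (fun m hm => ⟨by have := (h1 m hm).1; omega, (h1 m hm).2⟩)
        (by rw [zero_add]; exact hR2 _ hx)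
        (by omega) (Or.inl hs)
      rwa [zero_add] at h4
    · push Not at hs
      set c : Cfg Λ := ⟨G₂, s, fun _ => 0⟩ with hc
      have hcOK : c.OK M := ⟨h1, fun l x hx => absurd hx (Multiset.notMem_zero x)⟩
      have hsz0 : c.sz n = (G₂.map (ell (n + 1))).sum + s := by
        unfold Cfg.sz Cfg.nsz Cfg.fl
        simp [hc]
      have hsz : Y.R N ≤ c.sz n := by
        rw [hsz0]
        exact hsum
      have hkinds : c.kinds = G₂.map Kind.free + Multiset.replicate s (Kind.free 1) := by
        unfold Cfg.kinds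
        simp [hc]
      rw [← hkinds]
      obtain ⟨a, c', ha, -, hc', hK, -, htr, hy, -, hsz'⟩ :=
        phase_all Y H c hcOK (fun _ => rfl) hs hsz univ
      apply hK
      have hsa : Y.R a ≤ c'.sz n := by
        have := hsz
        linarith
      refine bridge_multi Y (yU n M t) univ a c' (fun l _ => ?_) (fun l hl => hy l hl)
        (fun T _ => branch Y H a ha c' hc' htr hsa (fun l => hy l (mem_univ l)) T)
      have h5 := (ha l).2
      have h6 := H.hN l
      omega
  refine Y.mono _ _ _ ?_ hkey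
  have h4 : G₂.map (Kind.free : ℕ → Kind Λ) + Multiset.replicate s (Kind.free 1) =
      (G₂ + Multiset.replicate s 1).map Kind.free := by
    rw [Multiset.map_add, Multiset.map_replicate]
  rw [h4]
  exact Multiset.map_le_map h2

private theorem exists_val (s : Finset ℂ) (q : ℕ) :
    ∃ v : Fin q → ℂ, Function.Injective v ∧ ∀ l, v l ∉ s := by
  have hinf : Infinite {z : ℂ // z ∉ s} := by
    have h1 : (((s : Set ℂ)ᶜ) : Set ℂ).Infinite := s.finite_toSet.infinite_compl
    exact h1.to_subtype
  let f := Infinite.natEmbedding {z : ℂ // z ∉ s}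
  exact ⟨fun l => (f l.val).1, fun a b hab => Fin.ext (f.injective (Subtype.ext hab)),
    fun l => (f l.val).2⟩

/-- General points of multiplicities at most `M` kill `W d` as soon as their lengths suffice. -/
theorem Fam.exact (hn : 1 ≤ n) {M : ℕ} (hM : 1 ≤ M) (A : Fam n) (d : ℕ) (hd : CU n M ≤ d)
    (hbig : TU n M ≤ A.h d - A.h (d - 1))
    (hslow : ∀ i < CU n M, (4 * M - 1) * (A.h d - A.h (d - 1)) ≤
      4 * M * (A.h (d - i) - A.h (d - i - 1)))
    (htr : ∀ i < CU n M, TrEx A M (d - i)) (G : Multiset ℕ) (hG : ∀ m ∈ G, m ≤ M)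
    (hsum : A.h d ≤ (G.map (ell (n + 1))).sum) : Fk (A.W d) G := by
  obtain ⟨v, hv, hb⟩ := exists_val A.bad (qU n M)
  have hell : 1 ≤ ell n M := ell_pos n hM
  have hq : 1 ≤ qU n M := by
    unfold qU
    have h1 : 1 ≤ 4 * M * ell n M := Nat.mul_pos (by omega) hell
    omega
  have hC : qU n M * (2 * M + 2) ≤ d := by
    refine le_trans ?_ hd
    unfold CU
    have h1 : 2 * M + 2 ≤ 11 * M := by omega
    calc qU n M * (2 * M + 2) ≤ qU n M * (11 * M) := Nat.mul_le_mul_left _ h1
      _ = 11 * M * qU n M := by ring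
  let i₀ : Fin (qU n M) := ⟨0, hq⟩
  let N : Fin (qU n M) → ℕ := fun l =>
    if l = i₀ then d - (qU n M - 1) * (2 * M + 2) else 2 * M + 2
  have hC' : (qU n M - 1) * (2 * M + 2) + (2 * M + 2) ≤ d := by
    refine le_trans (le_of_eq ?_) hC
    obtain ⟨k, hk⟩ := Nat.exists_eq_add_of_le' hq
    rw [hk, Nat.add_sub_cancel]
    ring
  have hN : ∑ l, N l = d := by
    rw [← Finset.sum_erase_add univ N (mem_univ i₀)]
    have h1 : ∑ l ∈ univ.erase i₀, N l = (qU n M - 1) * (2 * M + 2) := by
      rw [Finset.sum_congr rfl fun l hl => if_neg (Finset.ne_of_mem_erase hl),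
        Finset.sum_const, Finset.card_erase_of_mem (mem_univ _), Finset.card_univ,
        Fintype.card_fin, smul_eq_mul]
    have h2 : N i₀ = d - (qU n M - 1) * (2 * M + 2) := if_pos rfl
    rw [h1, h2]
    omega
  have hN' : ∀ l, 2 * M + 2 ≤ N l := by
    intro l
    by_cases h : l = i₀
    · have h2 : N l = d - (qU n M - 1) * (2 * M + 2) := if_pos h
      rw [h2]
      omega
    · have h2 : N l = 2 * M + 2 := if_neg h
      rw [h2]
  have H := sysU_num A M v hv hb hn hM d hd hbig hslow htr N hN hN'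
  have hT : 1 ≤ TU n M := by
    unfold TU
    exact Nat.mul_pos (Nat.mul_pos (by omega) (by omega)) (pow_pos (by omega) 2)
  have h0 : A.h d ≠ 0 := by omega
  have hR : (sysU A v hv hb).R N = A.h d := by
    show (if A.h (∑ l, N l) = 0 then (1 : ℤ) else (A.h (∑ l, N l) : ℤ)) = A.h d
    rw [hN, if_neg h0]
  have h1 := numU_exact (sysU A v hv hb) H G hG (by rw [hR]; exact_mod_cast hsum)
  have h2 : GMP (gU n v) (A.W (∑ l, N l)) (G.map Kind.free) := h1
  rw [hN] at h2
  exact (Fk_iff (gU n v) (A.W d) G).2 h2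

end Pool.Agent.H18.Ua
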